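import Pool.Agent.H80.DIC.Treer
import Pool.Agent.H3.D2G.RecT
import Pool.Agent.H3.D2G.RecZ

/-!
# The joints of the thin windows, from the cases at the window

`void_kc`, `noB_kc`: `void_kh`, `noB_kh` from the cases at the window (`CasV`). `lVoX_of_c`,
`lTvX_of_c`, `lTp2X_of_c`, `lTvL_four_c`, `lTp2L_four_c`: the leaves. `CavP`: cases at a void window
for kinds and slopes with `Φ`, with some property.
-/

set_option autoImplicit false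

namespace Pool.ASM

open MeasureTheory Set Filter Topology
open Pool.Agent.H49.Ent Pool.Agent.H32.Dense Pool.STK Pool.KA Pool.KSAT Pool.K2S Pool.PB
open Pool.GEN Pool.PKG Pool.SW
open Pool.ONE (Ext0 Ext)
open Pool.TOP (TopS)
open Pool.MIC6
open Pool.STR (StaAt SteepAt ThinAt)
open Pool.LA91 (sumQ HerQ aePG_sum her_sum)

/-- **The thin windows with a condition on the kinds and the slopes** are void, from the cases at the
window. -/
theorem void_kc {n : ℕ} {ι : Type} [Countable ι] {Q : PropG n ι} (hQ : AePG n Q)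
    {hn : 2 ≤ n} {S : PCl n} {P : ℝ → ℝ → ℝ} {r : ℝ → ℝ}
    {P' : ℕ → List (Fin n) × Fin n → ℝ → ℝ → ℝ} {Λ : Finset (Fin n) → Fin n → ℝ → ℝ → ℝ}
    {PB : ℕ → List (Fin n) × Fin n → ℝ → ℝ → ℝ} (H : PkT hn S P r P' Λ PB)
    (hTop : TopS n) (hF : FZX (n - 1)) (h : ℝ) (Φ : (ℕ → Kg) → (ℕ → ℝ) → Prop)
    (hcls : ∀ (Sl : ℕ → ℝ) (κ : ℕ → Kg), Φ κ Sl → KgT n κ Sl → CasV n h Sl κ Q (TruW n))
    (o : Od n) :
    ∀ᵐ g : ℝ, RwH H hTop hF h o g → ThW hn P P' PB o g →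
      (∀ κ : ℕ → Kg, KgT n κ (SlL hn P P' o g) → KgU hn P P' PB o g κ → Φ κ (SlL hn P P' o g)) →
      False := by
  have : Countable Kg := Kg.count
  have hall : ∀ᵐ g : ℝ, ∀ f : Fin n → Kg, RwH H hTop hF h o g →
      (KgT n (kgX n f) (SlL hn P P' o g) ∧ Φ (kgX n f) (SlL hn P P' o g)) →
      (∀ l < n, KgAt hn P P' PB o l g (kgX n f l)) → False := by
    refine ae_all_iff.2 fun f => ?_
    exact void_of_c (κ := kgX n f) hQ H hTop hF h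
      (fun Sl => KgT n (kgX n f) Sl ∧ Φ (kgX n f) Sl)
      (fun Sl k0 _ _ => hcls Sl _ k0.2 k0.1) o
  filter_upwards [hall, kg_all H hTop hF, kg_sta H hTop hF, sl_one H hTop hF,
    one_zero H hTop hF o, kg_nts H hTop hF] with g k1 k2 k3 k3' k3'' k6 R hT hs
  have ho := R.rwd.mem
  have k4 : ∀ l : Fin n, ∃ k : Kg, k ≠ .any ∧ ((l : ℕ) = n - 1 → k = .thin) ∧
      ((l : ℕ) < n - 1 → StaAt (LvL hn P P' o l) g → 1 < SlL hn P P' o g l → k = .sta) ∧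
      ((l : ℕ) < n - 1 → ThinAt (LvL hn P P' o l) (LvT hn PB o l) g → 1 < SlL hn P P' o g l →
        k = .thin) ∧ KgAt hn P P' PB o l g k := fun l => by
    by_cases hl : (l : ℕ) = n - 1
    · refine ⟨.thin, by simp, fun _ => rfl, fun h => absurd hl h.ne, fun _ _ _ => rfl, ?_⟩
      rw [hl]
      have h5 : LvL hn P P' o (n - 1) = P := lvL_last o
      obtain ⟨h6, h7⟩ := hT
      rw [slN_tar] at h6
      refine ⟨?_, ?_⟩
      · rw [h5]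
        exact h6
      · rw [h5, LvT_top]
        exact h7
    · by_cases hst : StaAt (LvL hn P P' o l) g ∧ 1 < SlL hn P P' o g l
      · exact ⟨.sta, by simp, fun h => absurd h hl, fun _ _ _ => rfl,
          fun _ h1 _ => absurd h1 (k6 o ho l l.2 hst.1 hst.2), k3 o ho l l.2 hst.1 hst.2⟩
      · by_cases hth : ThinAt (LvL hn P P' o l) (LvT hn PB o l) g ∧ 1 < SlL hn P P' o g l
        · exact ⟨.thin, by simp, fun _ => rfl, fun _ h1 h2 => absurd ⟨h1, h2⟩ hst,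
            fun _ _ _ => rfl, hth.2, hth.1⟩
        · obtain ⟨k, hk, hk'⟩ := k2 o ho l l.2
          exact ⟨k, hk, fun h => absurd h hl, fun _ h1 h2 => absurd ⟨h1, h2⟩ hst,
            fun _ h1 h2 => absurd ⟨h1, h2⟩ hth, hk'⟩
  choose f hf1 hf2 hf3 hf5 hf4 using k4
  have e : ∀ (l : ℕ) (hl : l < n), kgX n f l = f ⟨l, hl⟩ := fun l hl => by
    unfold kgX
    rw [dif_pos hl]
  have hkg : ∀ l < n, KgAt hn P P' PB o l g (kgX n f l) := fun l hl => by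
    rw [e l hl]
    exact hf4 ⟨l, hl⟩
  have hany : ∀ l < n, kgX n f l ≠ .any := fun l hl => by
    rw [e l hl]
    exact hf1 _
  have hone : ∀ l < n, SlL hn P P' o g l = 1 → kgX n f l = .one := fun l hl h3 => by
    obtain ⟨-, m2, m3, m4⟩ := (hkg l hl).sl
    have h4 := hany l hl
    rcases h5 : kgX n f l with _ | _ | _ | _ | _
    · rfl
    · exact absurd (m2 h5) (by rw [h3]; exact lt_irrefl _)
    · exact absurd (m3 h5) (by rw [h3]; norm_num)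
    · exact absurd (m4 h5) (by rw [h3]; norm_num)
    · exact absurd h5 h4
  have hK : KgT n (kgX n f) (SlL hn P P' o g) :=
    { zero := hone 0 (by omega) (k3'' ho)
      tar := by
        rw [e (n - 1) (by omega)]
        exact hf2 _ rfl
      any := hany
      one := fun l hl => ⟨(hkg l hl).sl.1, hone l hl⟩
      tar1 := by
        rw [← slN_SlL (hn := hn) (P := P) (P' := P') o g le_rfl]
        exact hT.1
      ge := k3' o ho
      sta := fun l hl => (hkg l hl).sl.2.2.1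
      stp := fun l hl => (hkg l hl).sl.2.2.2 }
  refine k1 f R ⟨hK, hs _ hK ⟨fun l hl h1 h2 => ?_, fun l hl h1 h2 => ?_⟩⟩ hkg
  · rw [e l (by omega)]
    exact hf3 ⟨l, by omega⟩ hl h1 h2
  · rw [e l (by omega)]
    exact hf5 ⟨l, by omega⟩ hl h1 h2

/-- **No boxes at the thin windows with a condition on the kinds and the slopes**, from the cases at
the window. -/
theorem noB_kc {n : ℕ} {ι : Type} [Countable ι] {Q : PropG n ι} (hQ : AePG n Q)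
    (Φ : (ℕ → Kg) → (ℕ → ℝ) → Prop) (hcls : ∀ h : ℝ, 0 < h → h ≤ 1 → ∀ (Sl : ℕ → ℝ) (κ : ℕ → Kg),
      Φ κ Sl → KgT n κ Sl → CasV n h Sl κ Q (TruW n)) :
    AllP n fun {hn} {_} {P} {_} {P'} {_} {PB} {_} H hTop hF h hρ =>
      NoB H hTop hF hρ h fun o g => ThW hn P P' PB o g ∧
        ∀ κ : ℕ → Kg, KgT n κ (SlL hn P P' o g) → KgU hn P P' PB o g κ →
          Φ κ (SlL hn P P' o g) := by
  intro hi hn hZ hF hTop S P r P' Λ PB H h hh hh1 ρ hρ hrow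
  refine noB_false fun o => ?_
  filter_upwards [void_kc hQ H hTop hF (h / 2) Φ (hcls _ (by linarith) (by linarith)) o,
    rwH_rho H hTop hF hρ (h' := h / 2) (by linarith) hrow o] with g k1 k2 R hx
  exact k1 (k2 R) hx.1 hx.2

/-- **`LVoX X n` from the cases at the window.** -/
theorem lVoX_of_c {n : ℕ} {ι : Type} [Countable ι] {Q : PropG n ι} (hQ : AePG n Q) {X : WinC}
    (Φ : (ℕ → Kg) → (ℕ → ℝ) → Prop)
    (hX : ∀ (hn : 2 ≤ n) (P : ℝ → ℝ → ℝ) (P' PB : ℕ → List (Fin n) × Fin n → ℝ → ℝ → ℝ)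
      (o : Od n) (g : ℝ), X n hn P P' PB o g → ∀ κ : ℕ → Kg, KgT n κ (SlL hn P P' o g) →
      KgU hn P P' PB o g κ → Φ κ (SlL hn P P' o g))
    (hcls : ∀ h : ℝ, 0 < h → h ≤ 1 → ∀ (Sl : ℕ → ℝ) (κ : ℕ → Kg), Φ κ Sl → KgT n κ Sl →
      CasV n h Sl κ Q (TruW n)) : LVoX X n := by
  intro hi hn hZ hF hTop S P r P' Λ PB H h hh hh1 o
  filter_upwards [void_kc hQ H hTop hF h Φ (hcls h hh hh1) o] with g k R hx hy
  exact k R hx (hX hn P P' PB o g hy)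

/-- **`LTvX X n` from the cases at the window.** -/
theorem lTvX_of_c {n : ℕ} {ι : Type} [Countable ι] {Q : PropG n ι} (hQ : AePG n Q) {X : WinC}
    (Φ : (ℕ → Kg) → (ℕ → ℝ) → Prop)
    (hX : ∀ (hn : 2 ≤ n) (P : ℝ → ℝ → ℝ) (P' PB : ℕ → List (Fin n) × Fin n → ℝ → ℝ → ℝ)
      (o : Od n) (g : ℝ), ¬ X n hn P P' PB o g → ∀ κ : ℕ → Kg, KgT n κ (SlL hn P P' o g) →
      KgU hn P P' PB o g κ → Φ κ (SlL hn P P' o g))
    (hcls : ∀ h : ℝ, 0 < h → h ≤ 1 → ∀ (Sl : ℕ → ℝ) (κ : ℕ → Kg), TwC n Sl →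
      (∀ l < n - 1, Sl l ≠ Sl (n - 1)) → Φ κ Sl → KgT n κ Sl → CasV n h Sl κ Q (TruW n)) :
    LTvX X n := by
  intro hi hn hZ hF hTop S P r P' Λ PB H h hh hh1 ρ hρ hrow
  refine (noB_kc hQ (fun κ Sl => TwC n Sl ∧ (∀ l < n - 1, Sl l ≠ Sl (n - 1)) ∧ Φ κ Sl)
    (fun h h0 h1 Sl κ k0 k1 => hcls h h0 h1 Sl κ k0.1 k0.2.1 k0.2.2 k1) hi hn hZ hF hTop S P r P' Λ
    PB H h hh hh1 ρ hρ hrow).mono fun o => Eventually.of_forall fun g _ hx => ?_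
  obtain ⟨⟨hT, hN, hO, i, hi1⟩, hf⟩ := hx
  refine ⟨hT, fun κ h1 h2 => ⟨⟨?_, i, i.2, ?_⟩, fun l hl => ?_, hX hn P P' PB o g hf κ h1 h2⟩⟩
  · by_contra hcon
    push Not at hcon
    refine hO fun j hj => ?_
    rw [slo_SlL H hTop hF o g j.2]
    exact hcon j hj j.2
  · rw [← slo_SlL H hTop hF o g i.2]
    exact hi1
  · rw [← slN_SlL o g (by omega), ← slN_SlL o g le_rfl]
    exact hN l hl

/-- **`LTp2X X n` from the cases at the window**: a tie. -/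
theorem lTp2X_of_c {n : ℕ} {ι : Type} [Countable ι] {Q : PropG n ι} (hQ : AePG n Q) {X : WinC}
    (Φ : (ℕ → Kg) → (ℕ → ℝ) → Prop)
    (hX : ∀ (hn : 2 ≤ n) (P : ℝ → ℝ → ℝ) (P' PB : ℕ → List (Fin n) × Fin n → ℝ → ℝ → ℝ)
      (o : Od n) (g : ℝ), ¬ X n hn P P' PB o g → ∀ κ : ℕ → Kg, KgT n κ (SlL hn P P' o g) →
      KgU hn P P' PB o g κ → Φ κ (SlL hn P P' o g))
    (hcls : ∀ h : ℝ, 0 < h → h ≤ 1 → ∀ (Sl : ℕ → ℝ) (κ : ℕ → Kg), TwC n Sl →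
      (∃ l < n - 1, Sl l = Sl (n - 1)) → Φ κ Sl → KgT n κ Sl → CasV n h Sl κ Q (TruW n)) :
    LTp2X X n := by
  intro hi hn hZ hF hTop S P r P' Λ PB H h hh hh1 ρ hρ hrow
  refine (noB_kc hQ (fun κ Sl => TwC n Sl ∧ (∃ l < n - 1, Sl l = Sl (n - 1)) ∧ Φ κ Sl)
    (fun h h0 h1 Sl κ k0 k1 => hcls h h0 h1 Sl κ k0.1 k0.2.1 k0.2.2 k1) hi hn hZ hF hTop S P r P' Λ
    PB H h hh hh1 ρ hρ hrow).mono fun o => Eventually.of_forall fun g _ hx => ?_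
  obtain ⟨⟨hT, ⟨l, hl, hti⟩, hO⟩, hf⟩ := hx
  have h1 : 1 < SlL hn P P' o g (n - 1) := by
    rw [← slN_SlL o g le_rfl]
    exact hT.1
  have h2 : SlL hn P P' o g l = SlL hn P P' o g (n - 1) := by
    rw [← slN_SlL o g (by omega), ← slN_SlL o g le_rfl]
    exact hti
  refine ⟨hT, fun κ h3 h4 => ⟨⟨?_, l, hl, by rw [h2]; exact h1⟩, ⟨l, hl, h2⟩,
    hX hn P P' PB o g hf κ h3 h4⟩⟩
  by_contra hcon
  push Not at hcon
  refine hO fun j hj => ?_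
  rw [slo_SlL H hTop hF o g j.2]
  exact hcon j hj j.2

/-- **Dimension four, more than one contact coordinate, no tie**, from the cases at the window. -/
theorem lTvL_four_c {ι : Type} [Countable ι] {Q : PropG 4 ι} (hQ : AePG 4 Q)
    (hcls : ∀ h : ℝ, 0 < h → h ≤ 1 → ∀ (Sl : ℕ → ℝ) (κ : ℕ → Kg) (l : ℕ), 1 ≤ l → l < 3 →
      Sl 3 < Sl l → (∀ k < 3, k ≠ l → Sl k = 1) → KgT 4 κ Sl → CasV 4 h Sl κ Q (TruW 4)) :
    LTvX FasL 4 := by
  refine lTvX_of_c hQ (fun _ Sl => ∃ l < 3, Sl 3 ≤ Sl l)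
    (fun hn P P' PB o g hf κ _ _ => notL_SlL hf) fun h h0 h1 Sl κ hT hN hL hK => ?_
  obtain ⟨l, hl, hle⟩ := hL
  obtain ⟨⟨j, hj1, hj, hjs⟩, -⟩ := hT
  have h3 : 1 < Sl 3 := hK.tar1
  have hlt : Sl 3 < Sl l := lt_of_le_of_ne hle (hN l hl).symm
  have h0' : Sl 0 = 1 := (hK.one 0 (by norm_num)).1 hK.zero
  have hj' : Sl j = 1 := le_antisymm hjs (hK.ge j (by omega))
  have hl1 : 1 ≤ l := by
    rcases Nat.eq_zero_or_pos l with h5 | h5
    · subst h5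
      linarith
    · exact h5
  have hjl : j ≠ l := fun h5 => by
    subst h5
    linarith
  refine hcls h h0 h1 Sl κ l hl1 hl hlt (fun k hk hkl => ?_) hK
  rcases (show k = 0 ∨ k = j by omega) with rfl | rfl
  · exact h0'
  · exact hj'

/-- **Dimension four, more than one contact coordinate, a tie**, from the cases at the window. -/
theorem lTp2L_four_c {ι : Type} [Countable ι] {Q : PropG 4 ι} (hQ : AePG 4 Q) {X : WinC}
    (hcls : ∀ h : ℝ, 0 < h → h ≤ 1 → ∀ (Sl : ℕ → ℝ) (κ : ℕ → Kg) (l : ℕ), 1 ≤ l → l < 3 →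
      Sl l = Sl 3 → (∀ k < 3, k ≠ l → Sl k = 1) → KgT 4 κ Sl → CasV 4 h Sl κ Q (TruW 4)) :
    LTp2X X 4 := by
  refine lTp2X_of_c hQ (fun _ Sl => True)
    (fun hn P P' PB o g hf κ _ _ => trivial) fun h h0 h1 Sl κ hT hN _ hK => ?_
  obtain ⟨l, hl, hle⟩ := hN
  obtain ⟨⟨j, hj1, hj, hjs⟩, -⟩ := hT
  have h3 : 1 < Sl 3 := hK.tar1
  have hle' : Sl l = Sl 3 := hle
  have h0' : Sl 0 = 1 := (hK.one 0 (by norm_num)).1 hK.zero
  have hj' : Sl j = 1 := le_antisymm hjs (hK.ge j (by omega))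
  have hl1 : 1 ≤ l := by
    rcases Nat.eq_zero_or_pos l with h5 | h5
    · subst h5
      linarith
    · exact h5
  have hjl : j ≠ l := fun h5 => by
    subst h5
    linarith
  refine hcls h h0 h1 Sl κ l hl1 hl hle' (fun k hk hkl => ?_) hK
  rcases (show k = 0 ∨ k = j by omega) with rfl | rfl
  · exact h0'
  · exact hj'

/-! ### Parts with their own property -/

/-- **Cases at a void window**, for the kinds and the slopes with `Φ`, under the condition `W`, with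
some property. -/
def CavP (n : ℕ) (Φ : (ℕ → Kg) → (ℕ → ℝ) → Prop) (W : PropW n) : Prop :=
  ∃ (ι : Type) (_ : Countable ι) (Q : PropG n ι), AePG n Q ∧ HerQ Q ∧
    ∀ h : ℝ, 0 < h → h ≤ 1 → ∀ (Sl : ℕ → ℝ) (κ : ℕ → Kg), Φ κ Sl → KgT n κ Sl →
      CasV n h Sl κ Q W

section

variable {n : ℕ} {ι ι' : Type} {h : ℝ} {Sl : ℕ → ℝ} {κ : ℕ → Kg} {Q : PropG n ι} {Q' : PropG n ι'}
  {W : PropW n} {Φ Φ' : (ℕ → Kg) → (ℕ → ℝ) → Prop}

theorem _root_.Pool.PKG.CasV.inl (H : CasV n h Sl κ Q W) : CasV n h Sl κ (sumQ Q Q') W := by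
  intro S P θ c Pt r L T G g hg hq hW
  obtain ⟨Lm, Z, h1, h2⟩ := H S P θ c Pt r L T G g hg (allQ_inl hq) hW
  exact ⟨Lm, Z, h1.inl, h2⟩

theorem _root_.Pool.PKG.CasV.inr (H : CasV n h Sl κ Q' W) : CasV n h Sl κ (sumQ Q Q') W := by
  intro S P θ c Pt r L T G g hg hq hW
  obtain ⟨Lm, Z, h1, h2⟩ := H S P θ c Pt r L T G g hg (allQ_inr hq) hW
  exact ⟨Lm, Z, h1.inr, h2⟩

theorem _root_.Pool.PKG.CasV.imp {W' : PropW n} (H : CasV n h Sl κ Q W')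
    (h2 : ∀ S P θ c Pt r L T G g, W S P θ c Pt r L T κ G g → W' S P θ c Pt r L T κ G g) :
    CasV n h Sl κ Q W := fun S P θ c Pt r L T G g hg hq hW =>
  H S P θ c Pt r L T G g hg hq (h2 S P θ c Pt r L T G g hW)

/-- From a class theorem of a void kind of windows. -/
theorem cavP_v {ι : Type} [Countable ι] {Q : PropG n ι} (hQ : AePG n Q) (hh : HerQ Q)
    (H : ∀ h : ℝ, 0 < h → h ≤ 1 → ∀ (Sl : ℕ → ℝ) (κ : ℕ → Kg), Φ κ Sl → KgT n κ Sl →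
      VoidQH n h Sl κ Q) : CavP n Φ W :=
  ⟨ι, inferInstance, Q, hQ, hh, fun h h0 h1 Sl κ hS hK =>
    CasV.leaf (H h h0 h1 Sl κ hS hK).vz fun _ _ _ _ _ _ _ _ _ _ _ _ _ _ => trivial⟩

/-- From a class theorem of a void kind of windows, under a condition. -/
theorem cavP_z {ι : Type} [Countable ι] {Q : PropG n ι} (hQ : AePG n Q) (hh : HerQ Q)
    (H : ∀ h : ℝ, 0 < h → h ≤ 1 → ∀ (Sl : ℕ → ℝ) (κ : ℕ → Kg), Φ κ Sl → KgT n κ Sl →
      VoidZ n h Sl κ Q (fun _ : Unit => W)) : CavP n Φ W :=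
  ⟨ι, inferInstance, Q, hQ, hh, fun h h0 h1 Sl κ hS hK =>
    CasV.leaf (H h h0 h1 Sl κ hS hK) fun _ _ _ _ _ _ _ _ _ _ _ _ hW _ => hW⟩

theorem CavP.mono (H : CavP n Φ W) (hΦ : ∀ κ Sl, Φ' κ Sl → Φ κ Sl) : CavP n Φ' W := by
  obtain ⟨ι, hc, Q, hQ, hh, H⟩ := H
  exact ⟨ι, hc, Q, hQ, hh, fun h h0 h1 Sl κ hS => H h h0 h1 Sl κ (hΦ κ Sl hS)⟩

/-- **A weaker condition.** -/
theorem CavP.imp {W' : PropW n} (H : CavP n Φ W)
    (hW : ∀ S P θ c Pt r L T κ G g, W' S P θ c Pt r L T κ G g → W S P θ c Pt r L T κ G g) :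
    CavP n Φ W' := by
  obtain ⟨ι, hc, Q, hQ, hh, H⟩ := H
  exact ⟨ι, hc, Q, hQ, hh, fun h h0 h1 Sl κ hS hK => (H h h0 h1 Sl κ hS hK).imp
    fun S P θ c Pt r L T G g => hW S P θ c Pt r L T κ G g⟩

/-- **Two ranges of the kinds and the slopes.** -/
theorem CavP.num (H : CavP n Φ W) (H' : CavP n Φ' W) :
    CavP n (fun κ Sl => Φ κ Sl ∨ Φ' κ Sl) W := by
  obtain ⟨ι, hc, Q, hQ, hh, H⟩ := H
  obtain ⟨ι', hc', Q', hQ', hh', H'⟩ := H'
  refine ⟨ι ⊕ ι', inferInstance, sumQ Q Q', aePG_sum hQ hh hQ', her_sum hh hh',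
    fun h h0 h1 Sl κ hS hK => ?_⟩
  rcases hS with hS | hS
  · exact (H h h0 h1 Sl κ hS hK).inl
  · exact (H' h h0 h1 Sl κ hS hK).inr

/-- **Two cases.** -/
theorem CavP.or (Y : PropW n) (H : CavP n Φ (AndW W Y)) (H' : CavP n Φ (AndW W (NotW Y))) :
    CavP n Φ W := by
  obtain ⟨ι, hc, Q, hQ, hh, H⟩ := H
  obtain ⟨ι', hc', Q', hQ', hh', H'⟩ := H'
  exact ⟨ι ⊕ ι', inferInstance, sumQ Q Q', aePG_sum hQ hh hQ', her_sum hh hh',
    fun h h0 h1 Sl κ hS hK => CasV.or Y (H h h0 h1 Sl κ hS hK).inl (H' h h0 h1 Sl κ hS hK).inr⟩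

/-- **A property at the window.** -/
theorem CavP.prp {ι₁ : Type} [Countable ι₁] {Q₁ : PropG n ι₁} (hQ₁ : AePG n Q₁) (hh₁ : HerQ Q₁)
    (p : ι₁) (H : CavP n Φ (AndW W fun S P θ c Pt r L T κ G g =>
      ∃ k₀, Q₁ p k₀ S P θ c Pt r L T κ G g)) : CavP n Φ W := by
  obtain ⟨ι, hc, Q, hQ, hh, H⟩ := H
  refine ⟨ι ⊕ ι₁, inferInstance, sumQ Q Q₁, aePG_sum hQ hh hQ₁, her_sum hh hh₁,
    fun h h0 h1 Sl κ hS hK S P θ c Pt r L T G g hg hq hW => ?_⟩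
  exact (H h h0 h1 Sl κ hS hK).inl S P θ c Pt r L T G g hg hq ⟨hW, allQ_inr hq p⟩

end

end Pool.ASM
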