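import Pool.Agent.H16.ROW.RowD
import Pool.Agent.H64.QUAD.Scl
import Pool.Agent.H74.ROW.Full
import Pool.Agent.H98.QW.SelB

/-!
# Row 366 from the stars

Everything except `StarStmt` is composed: `RowD`, `FullStmt`, `CombB` are theorems.
-/

set_option autoImplicit false

namespace Pool.ROW16

/-- The digits of the heights are full for every candidate. -/
theorem full (c k : ℕ) : Pool.QC.FullStmt c k := Pool.ROW74.full_of_rowd (rowD c k)

/-- One functional which nearly kills all candidates. -/
theorem comb {c : ℕ} (k : ℕ) : Pool.QC.CombB c k := Pool.QC98.comb_b (full c k)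

/-- **Row 366 from the stars.** -/
theorem quad {c k : ℕ} (h : Pool.QT64.StarStmt c k) : Pool.QT64.QuadStmt c k :=
  Pool.QT64.quad_of h (comb k)

end Pool.ROW16
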