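import Pool.Agent.H30.SIG.Sgl
import Pool.Agent.H74.ROW.RowD
import Pool.Agent.H89.CLO.Rec
import Pool.Agent.H97.QUAD.Fresh

/-!
# The local prices of the candidates (row 366)

`rowD`: the signal of a candidate (helper30) is fed into the window lemma (helper89). The difference
of the pollutions of two samples with the same digits is `r (d₂ - ρ d₁)`, `d₂` a real candidate of
level `K (n + mu)` and `d₁` an exact candidate of level `K n`, `|r| 2 ^ (K l) ≤ 2`.
-/

set_option autoImplicit false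

namespace Pool.ROW16

open Matrix
open Finset Real
open Pool.Agent.H49.Ent Pool.Agent.H32.Dense Pool.STK Pool.KS6 Pool.RC21 Pool.QC Pool.ROW74

variable {c k : ℕ}

/-- Difference of two vectors of the body. -/
theorem in_comb {a r t : ℝ} {V : Matrix (Fin c) (Fin c) ℝ} {e1 e2 : Fin c → ℝ}
    (h1 : In a V e1) (h2 : In a V e2) (hr : |r| ≤ 2) (ht : |t| ≤ 2) :
    In (4 * a) V (r • e2 - t • e1) := by
  intro i
  rw [mulVec_sub, mulVec_smul, mulVec_smul]
  simp only [Pi.sub_apply, Pi.smul_apply, smul_eq_mul]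
  have b1 : |t * (V⁻¹ *ᵥ e1) i| ≤ 2 * a := by
    rw [abs_mul]
    exact mul_le_mul ht (h1 i) (abs_nonneg _) (by norm_num)
  have b2 : |r * (V⁻¹ *ᵥ e2) i| ≤ 2 * a := by
    rw [abs_mul]
    exact mul_le_mul hr (h2 i) (abs_nonneg _) (by norm_num)
  exact (abs_sub _ _).trans (by linarith)

/-- The pollution is in the body. -/
theorem in_gd {D : QD c k} {X K mu : ℕ} {q1 : ℝ} {l n : ℕ} {f : Fin c → ℝ}
    (hf : D.Gd X (K * mu) q1 (K * l) (K * n) f) {r0 : ℝ} {V : Matrix (Fin c) (Fin c) ℝ} {a : ℝ}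
    (ha : 1 ≤ a)
    (hB : ∀ u ∈ ({u | false = false ∧ ∃ E ∈ Qs D X K mu q1 (n + mu),
        u = ((2 : ℝ) ^ (K * l))⁻¹ • E} ∪ Ax r0 : Set (Fin c → ℝ)), In a V u) :
    In (4 * a) V f := by
  rcases hf with rfl | ⟨d1, d2, r, rho, h1, h2, hrho, hr, rfl⟩
  · intro i
    rw [mulVec_zero]
    simp only [Pi.zero_apply, abs_zero]
    linarith
  · have hL : (0 : ℝ) < 2 ^ (K * l) := by positivity
    have m1 : d1 ∈ Qs D X K mu q1 (n + mu) := by
      right
      show D.Cand X (K * mu) q1 (K * (n + mu - mu)) true d1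
      rwa [Nat.add_sub_cancel]
    have m2 : d2 ∈ Qs D X K mu q1 (n + mu) := by
      left
      show D.Cand X (K * mu) q1 (K * (n + mu)) false d2
      rwa [Nat.mul_add]
    have i1 : In a V (((2 : ℝ) ^ (K * l))⁻¹ • d1) := hB _ (Or.inl ⟨rfl, d1, m1, rfl⟩)
    have i2 : In a V (((2 : ℝ) ^ (K * l))⁻¹ • d2) := hB _ (Or.inl ⟨rfl, d2, m2, rfl⟩)
    have e : r • (d2 - rho • d1) = (r * 2 ^ (K * l)) • (((2 : ℝ) ^ (K * l))⁻¹ • d2) -
        (r * 2 ^ (K * l) * rho) • (((2 : ℝ) ^ (K * l))⁻¹ • d1) := by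
      rw [smul_smul, smul_smul, smul_sub, smul_smul]
      congr 2
      · field_simp
      · field_simp
    rw [e]
    have hr' : |r * 2 ^ (K * l)| ≤ 2 := by rwa [abs_mul, abs_of_pos hL]
    refine in_comb i1 i2 hr' ?_
    rw [abs_mul]
    calc |r * 2 ^ (K * l)| * |rho| ≤ 2 * 1 := mul_le_mul hr' hrho (abs_nonneg _) (by norm_num)
      _ = 2 := by norm_num

/-- The expectation of a zero function. -/
theorem ex_zero {Z : Type} [Fintype Z] (p : Z → ℝ) {f : Z → ℝ} (h : ∀ z, f z = 0) :
    Ex p f = 0 := by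
  unfold Ex
  refine Finset.sum_eq_zero fun z _ => ?_
  rw [h z, mul_zero]

/-- **(ROWD)** The local prices of the candidates exist. -/
theorem rowD (c k : ℕ) : Pool.ROW74.RowD c k := by
  classical
  obtain ⟨C4, hC4, hs⟩ := sgl_exists Pool.CLO97.fresh
  have hlog2 : 0 ≤ Real.log 2 := Real.log_nonneg (by norm_num)
  refine ⟨4 * Real.log 2 * C4, by positivity, Pool.CLO.Ct c, Pool.CLO.Ct_nonneg c,
    Pool.CLO.Ct_mono c, ?_⟩
  intro K mu C C1 hK _hmu hC hC1
  obtain ⟨C5, hC5, hs⟩ := hs c k (K * mu) K C C1 hK hC hC1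
  set C' : ℝ := 20 * (2 + 2 ^ (K * mu)) * C with hC'
  have hC'0 : 0 < C' := by
    have : (0 : ℝ) < 2 ^ (K * mu) := by positivity
    positivity
  refine ⟨1 + C' + C5, by positivity, ?_⟩
  intro D X q ε hq hq2 hε hD Ω _ p R hp hA N r hX hr l w δ hcand
  have hX' : K * N + K * mu + 2 ≤ X := by rwa [Nat.mul_add] at hX
  obtain ⟨S⟩ := hs D X q hq hq2 hD N (by omega) (K * l) w δ (Or.inl hcand)
  have hXp : (0 : ℝ) < 2 ^ X := by positivity
  have hr0 : 0 < r := lt_of_lt_of_le (by positivity) hr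
  have hCr : C' / 2 ^ X ≤ r := by
    refine le_trans ?_ hr
    refine div_le_div_of_nonneg_right ?_ hXp.le
    linarith
  have hloga : 0 ≤ Real.log (1 / q) := Real.log_nonneg (by
    rw [le_div_iff₀ hq]
    linarith)
  have hFw : w = true → ∀ z : S.Γ × S.Γ, S.F z.1 - S.F z.2 = 0 := by
    intro hw z
    rw [S.F_true hw, S.F_true hw, sub_self]
  obtain ⟨cs, h0, hsum, hsig⟩ := Pool.CLO.sig_row (q := S.P) S.law hp R hε hA S.S S.y S.F δ X K N
    (C := C') (loss := C5 * (1 + Real.log (1 / q))) S.y_lt S.near S.comb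
    (S.ent (K * N + 1) (by omega)) (fun n => S.bad (K * n)) (fun n => S.bad_nn _)
    (fun n f => (w = false → D.Gd X (K * mu) (q ^ C1) (K * l) (K * n) f) ∧ (w = true → f = 0))
    (by
      intro n _
      cases w with
      | true =>
        rw [ex_zero]
        · exact S.bad_nn _
        · intro z
          rw [ind, if_neg]
          rw [not_not]
          exact ⟨fun h => absurd h (by decide), fun h => hFw h z⟩
      | false =>
        refine le_trans (le_of_eq ?_) (S.bad_le (K * n))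
        congr 1
        funext z
        have : (¬((false = false → D.Gd X (K * mu) (q ^ C1) (K * l) (K * n) (S.F z.1 - S.F z.2)) ∧
            (false = true → S.F z.1 - S.F z.2 = 0))) ↔
            ¬ D.Gd X (K * mu) (q ^ C1) (K * l) (K * n) (fun i => S.F z.1 i - S.F z.2 i) := by
          constructor
          · intro h h1
            exact h ⟨fun _ => h1, fun h2 => absurd h2 (by decide)⟩
          · intro h h1
            exact h (h1.1 rfl)
        exact congrArg ind (propext this))
  refine ⟨cs, h0, ?_, ?_⟩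
  · -- the total price
    have hK1 : (1 : ℝ) ≤ K := by exact_mod_cast hK
    have b1 : ((K + 3) * Real.log 2) * ∑ n ∈ range N, S.bad (K * n) ≤
        (4 * K * Real.log 2) * (C4 / C1 * N) := by
      refine mul_le_mul ?_ S.bad_sum (Finset.sum_nonneg fun n _ => S.bad_nn _) (by positivity)
      refine mul_le_mul_of_nonneg_right (by linarith) hlog2
    have b2 : (4 * K * Real.log 2) * (C4 / C1 * N) = 4 * Real.log 2 * C4 / C1 * (K * N) := by
      ring
    have b3 : (1 + C') * ε ≤ (1 + C' + C5) * ε := mul_le_mul_of_nonneg_right (by linarith) hε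
    have b4 : C5 * (1 + Real.log (1 / q)) ≤ (1 + C' + C5) * (1 + Real.log (1 / q)) :=
      mul_le_mul_of_nonneg_right (by linarith) (by linarith)
    have b5 : (1 + C' + C5) * (1 + ε + Real.log (1 / q)) =
        (1 + C' + C5) * ε + (1 + C' + C5) * (1 + Real.log (1 / q)) := by ring
    rw [b5]
    linarith
  · intro n hn V a hV ha hB j k1 k2 k3
    have h1 := hsig n hn ({u | w = false ∧ ∃ E ∈ Qs D X K mu (q ^ C1) (n + mu),
        u = ((2 : ℝ) ^ (K * l))⁻¹ • E} ∪ Ax r) r hr0 hCr (fun i => Or.inr ⟨i, rfl⟩)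
      (by
        intro f hf V a hV ha hB
        cases w with
        | true =>
          rw [hf.2 rfl]
          intro i
          rw [mulVec_zero]
          simp only [Pi.zero_apply, abs_zero]
          linarith
        | false => exact in_gd (hf.1 rfl) ha hB)
      V a hV ha hB j k1 k2 k3
    have h2 := Pool.CLO.Cw_le_Ct c ha
    linarith

end Pool.ROW16
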