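import Pool.Agent.H83.VT.Sheet

/-!
# The windows with a thin target and another place of its slope, more than one contact coordinate

The place `2` (or `1`) has the slope of the target, the two other places of the base have slope one.
`VeF`, `VeL`: the tie at the place 2; full rate, small rate of the target. `VeB0`, `VeB1`: the tie at
the place 1; the place 2 has closed labels of its level over the place 0, or labels of this precision
are absent. `pTwo_eq`: `PTwo (a = b)` from the parts.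
-/

set_option autoImplicit false

namespace Pool.VE16

open Pool.Agent.H49.Ent Pool.Agent.H32.Dense Pool.STK Pool.KA Pool.KSAT Pool.K2S Pool.PB
open Pool.GEN Pool.PKG Pool.SW Pool.ALT Pool.ASM Pool.VT83
open Pool.LA91 (sumQ HerQ aePG_sum her_sum)

/-- The slopes and the kind: the place 2 has the slope of the target, `k` its kind. -/
def Ne2 (k : Kg) (κ : ℕ → Kg) (Sl : ℕ → ℝ) : Prop :=
  κ 2 = k ∧ Sl 0 = 1 ∧ Sl 1 = 1 ∧ 1 < Sl 3 ∧ Sl 2 = Sl 3

/-- The place 1 has the slope of the target. -/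
def Ne1 (k : Kg) (κ : ℕ → Kg) (Sl : ℕ → ℝ) : Prop :=
  κ 1 = k ∧ Sl 0 = 1 ∧ Sl 2 = 1 ∧ 1 < Sl 3 ∧ Sl 1 = Sl 3

/-- **The tie at the place 2, full rate** of the target: void. -/
def VeF (k : Kg) : Prop :=
  VodP 4 (Ne2 k) fun Sl (b : PosR × ℕ) => FulR (AdmN 2) (Sl 3 * Real.log 2) b.1 b.2

/-- **The tie at the place 2, small rate** of the target: void. -/
def VeL (k : Kg) : Prop :=
  ∃ (ι : Type) (_ : Countable ι) (Q : PropG 4 ι), AePG 4 Q ∧ HerQ Q ∧
    ∀ h : ℝ, 0 < h → h ≤ 1 → ∀ (Sl : ℕ → ℝ) (κ : ℕ → Kg), Ne2 k κ Sl → KgT 4 κ Sl →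
      ∀ (b : PosR) (D : ℕ), VoidZ 4 h Sl κ Q
        (fun e : PosR => LowE (AdmN 2) (Sl 3 * Real.log 2 - b) D e)

/-- **The tie at the place 1**, closed labels of the place 2 over the place 0: void. -/
def VeB0 (k : Kg) : Prop := CavP 4 (Ne1 k) (fun S P θ c Pt r L T κ G g =>
  Pool.SWP.SwQ 1 0 S P θ c Pt r L T κ G g)

/-- **The tie at the place 1**, no labels of the place 2 over the place 0 of its level: void. -/
def VeB1 (k : Kg) : Prop := CavP 4 (Ne1 k) (fun S P θ c Pt r L T κ G g =>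
  Pool.SWP.SwQ 1 1 S P θ c Pt r L T κ G g)

/-- The place 2 of the kind `k`. -/
theorem ve_two {k : Kg} (hF : VeF k) (hL : VeL k) : CavP 4 (Ne2 k) (TruW 4) :=
  cavP_rt (fun _ => AdmN 2) (fun Sl => Sl 3 * Real.log 2) hF hL

/-- The tie at the place 1. -/
theorem ve_one {k : Kg} (h0 : VeB0 k) (h1 : VeB1 k) : CavP 4 (Ne1 k) (TruW 4) := by
  refine CavP.prp (Pool.SWP.aePG_sw 4) (Pool.SWP.her_sw 4) 1 ?_
  exact CavP.or (W := AndW (TruW 4) fun S P θ c Pt r L T κ G g =>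
    ∃ k₀, Pool.SWP.SwQ 1 k₀ S P θ c Pt r L T κ G g)
    (fun S P θ c Pt r L T κ G g => Pool.SWP.SwQ 1 0 S P θ c Pt r L T κ G g)
    (h0.imp fun S P θ c Pt r L T κ G g hw => hw.2)
    (h1.imp fun S P θ c Pt r L T κ G g hw => by
      obtain ⟨⟨-, k₀, hk⟩, h2⟩ := hw
      obtain ⟨h3, -⟩ := hk (by norm_num)
      rcases (show k₀ = 0 ∨ k₀ = 1 by omega) with rfl | rfl
      · exact absurd hk h2
      · exact hk)

/-- A kind at the place 2. -/
theorem vd_two {k : Kg} (hk : k = .thin ∨ k = .sta ∨ k = .stp) (hF : VeF k) (hL : VeL k) :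
    VdP (kg4 .one .one k .thin) (Nm2 2 1 (fun a b => a = b) k) :=
  cavP_vd (ve_two hF hL) fun _ h => ⟨⟨rfl, h.s0, h.sj, h.s3, h.rel⟩, nm2_kgt hk h⟩

/-- A kind at the place 1. -/
theorem vd_one {k : Kg} (hk : k = .thin ∨ k = .sta) (h0 : VeB0 k) (h1 : VeB1 k) :
    VdP (kg4 .one k .one .thin) (Nm2 1 2 (fun a b => a = b) k) :=
  cavP_vd (ve_one h0 h1) fun _ h => ⟨⟨rfl, h.s0, h.sj, h.s3, h.rel⟩, nm2_kgt' hk h⟩

/-- **`PTwo (a = b)` from the named parts.** -/
theorem pTwo_eq (hF : VeF .thin) (hFs : VeF .sta) (hFp : VeF .stp) (hL : VeL .thin)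
    (hLs : VeL .sta) (hLp : VeL .stp) (h0 : VeB0 .thin) (h1 : VeB1 .thin) (h0s : VeB0 .sta)
    (h1s : VeB1 .sta) : PTwo fun a b => a = b where
  t2 := vd_two (by simp) hF hL
  s2 := vd_two (by simp) hFs hLs
  p2 := vd_two (by simp) hFp hLp
  t1 := vd_one (by simp) h0 h1
  s1 := vd_one (by simp) h0s h1s

/-- **`LTp2X FasL 4` from the named parts.** -/
theorem lTp2_par (hF : VeF .thin) (hFs : VeF .sta) (hFp : VeF .stp) (hL : VeL .thin)
    (hLs : VeL .sta) (hLp : VeL .stp) (h0 : VeB0 .thin) (h1 : VeB1 .thin) (h0s : VeB0 .sta)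
    (h1s : VeB1 .sta) : LTp2X FasL 4 := lTp2_of_k (pTwo_eq hF hFs hFp hL hLs hLp h0 h1 h0s h1s)

end Pool.VE16
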