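import Pool.Agent.H16.ROW.Cv
import Pool.Agent.H3.SWP.Swg

/-!
# The windows with a thin target and a tie: the named parts

`TpA`: the place 2 has the slope of the target, the places 0 and 1 have slope one. `TpB0`, `TpB1`: the
place 1 has the slope of the target; the place 2 has closed labels of its level over the place 0, or
labels of this precision are absent. `lTp2_of`: `LTp2X FasL 4` from the three parts.
-/

set_option autoImplicit false

namespace Pool.ASM

open Pool.Agent.H49.Ent Pool.Agent.H32.Dense Pool.STK Pool.KA Pool.KSAT Pool.K2S Pool.PB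
open Pool.GEN Pool.PKG Pool.SW

/-- **The tie at the place 2**: the windows are void. -/
def TpA : Prop := CavP 4 (fun _ Sl => Sl 0 = 1 ∧ Sl 1 = 1 ∧ Sl 2 = Sl 3) (TruW 4)

/-- **The tie at the place 1**, closed labels of the place 2 over the place 0: void. -/
def TpB0 : Prop := CavP 4 (fun _ Sl => Sl 0 = 1 ∧ Sl 2 = 1 ∧ Sl 1 = Sl 3)
  (fun S P θ c Pt r L T κ G g => Pool.SWP.SwQ 1 0 S P θ c Pt r L T κ G g)

/-- **The tie at the place 1**, no labels of the place 2 over the place 0 of its level: void. -/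
def TpB1 : Prop := CavP 4 (fun _ Sl => Sl 0 = 1 ∧ Sl 2 = 1 ∧ Sl 1 = Sl 3)
  (fun S P θ c Pt r L T κ G g => Pool.SWP.SwQ 1 1 S P θ c Pt r L T κ G g)

/-- **`LTp2X X 4` from the parts.** -/
theorem lTp2_of (hA : TpA) (h0 : TpB0) (h1 : TpB1) {X : WinC} : LTp2X X 4 := by
  have hB : CavP 4 (fun _ Sl => Sl 0 = 1 ∧ Sl 2 = 1 ∧ Sl 1 = Sl 3) (TruW 4) := by
    refine CavP.prp (Pool.SWP.aePG_sw 4) (Pool.SWP.her_sw 4) 1 ?_
    obtain ⟨ι, hc, Q, hQ, hh, H⟩ := CavP.or (W := AndW (TruW 4) fun S P θ c Pt r L T κ G g =>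
      ∃ k₀, Pool.SWP.SwQ 1 k₀ S P θ c Pt r L T κ G g)
      (fun S P θ c Pt r L T κ G g => Pool.SWP.SwQ 1 0 S P θ c Pt r L T κ G g)
      (h0.imp fun S P θ c Pt r L T κ G g hw => hw.2)
      (h1.imp fun S P θ c Pt r L T κ G g hw => by
        obtain ⟨⟨-, k₀, hk⟩, h2⟩ := hw
        obtain ⟨h3, -⟩ := hk (by norm_num)
        rcases (show k₀ = 0 ∨ k₀ = 1 by omega) with rfl | rfl
        · exact absurd hk h2
        · exact hk)
    exact ⟨ι, hc, Q, hQ, hh, H⟩
  obtain ⟨ι, hc, Q, hQ, hh, H⟩ := hA.num hB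
  refine lTp2L_four_c hQ fun h h0 h1 Sl κ l hl1 hl hli hone hK => H h h0 h1 Sl κ ?_ hK
  rcases (show l = 1 ∨ l = 2 by omega) with rfl | rfl
  · exact Or.inr ⟨hone 0 (by norm_num) (by norm_num), hone 2 (by norm_num) (by norm_num), hli⟩
  · exact Or.inl ⟨hone 0 (by norm_num) (by norm_num), hone 1 (by norm_num) (by norm_num), hli⟩

end Pool.ASM
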